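import Mathlib
import Pool.Agent.Helper55_Schatten.Main
import Pool.Agent.Helper55_Schatten.Sanity

/-!
# Absolute contractions on Schatten classes are not pw-limits of isometries (`p ≠ 2`)

`H` is a separable infinite-dimensional complex Hilbert space (it has an orthonormal basis `b`
indexed by `ℕ`), `Schatten b p` is the Schatten-von Neumann class `𝔖_p(H)` with the norm
`(tr (c* c)^{p/2})^{1/p}`.

For every `1 < p < ∞`, `p ≠ 2`, the operator `T x = (tr (q x) / 2) q`, with `q` an orthogonal
projection of rank two, is an absolute contraction of `𝔖_p` that does not belong to the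
`pw`-closure of the set of all isometries of `𝔖_p`.
-/

namespace Pool.Agent.Results.MP_fc6e23_an.NegativeAnswer

open Pool.Agent.Helper55.SvN

/-- For every `1 < p < ∞` with `p ≠ 2` there is an absolute contraction on `𝔖_p` that is not in
the `pw`-closure of the set of (all, not necessarily surjective) isometries of `𝔖_p`. -/
theorem result {H : Type*} [NormedAddCommGroup H] [InnerProductSpace ℂ H] [CompleteSpace H]
    (b : HilbertBasis ℕ ℂ H) (p : ℝ) [Fact (1 ≤ p)] (hp1 : 1 < p) (hp2 : p ≠ 2) :
    ∃ T : BoundedOp b p, IsAbsoluteContraction T ∧ T ∉ pwClosureIsometries b p :=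
  ⟨Schatten.T₀ b p, Schatten.isAbsoluteContraction_T₀, main b p hp1 hp2⟩

end Pool.Agent.Results.MP_fc6e23_an.NegativeAnswer
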